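import Mathlib
import Pool.Agent.U621.PAR.Main
import Pool.Agent.U621.PAR.Quad

/-!
# The Birch and Swinnerton-Dyer conjecture modulo two for the quadratic twists of `X_0(14)` over
abelian number fields

`E_D` is the quadratic twist by `D` of the modular curve `X_0(14)`, `D` squarefree, `1` modulo `4` and
prime to `14`. `K` is an abelian number field in which the prime divisors of `14 D` are unramified: a
subfield of the `n`-th cyclotomic field, `n` prime to `14 D`. Its Galois group, its degree and its
conductor are arbitrary. `M` is the subfield of `K` generated by the square roots of the integers that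
lie in `K`, i.e. the compositum of the quadratic subfields of `K`.

* **Reduction.** The Euler products of `E_D` over `K` and over `M` continue to entire functions whose
  orders of vanishing at `s = 1` are finite and congruent modulo two. The ranks of `E_D(K)` and
  `E_D(M)` are congruent modulo two. So the conjecture modulo two for `E_D` over `K` is equivalent to
  the one over `M`.
* **Criterion.** If `D e` is a good number for all the squarefree integers `e` with `√e ∈ K`, then the
  order and the rank over `M` are zero, the order and the rank over `K` are even, and the conjecture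
  modulo two holds for `E_D` over `K`.
* **Families.** If `D` is good and the prime divisors of `n` are inert, do not divide `D` and are squares
  modulo the split prime divisors of `D`, then the conjecture modulo two holds for `E_D` over all the
  subfields of the `n`-th cyclotomic field. In particular this is so for `E_1 = X_0(14)` and for all the
  `n` whose prime divisors are inert (`5` modulo `8` and not squares modulo `7`).

Proof. The group `G = Gal(K/ℚ)` acts on `E_D(K) ⊗ ℚ`, the elements fixed by all the squares of `G` are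
`E_D(M) ⊗ ℚ`, and the dimension of a complement is even: the representation is rational, and it has
no real constituents besides the ones over `M`; we prove this by an induction over the subgroups
generated by squares, with integral matrices only. For the analytic side the function is the product of
the `L(E_D, χ, s)` over the characters `χ` of `K`; `χ` and its conjugate have the same order at `1` by
the symmetry `L(E_D, χ̄, s̄) = conj L(E_D, χ, s)`, and the real characters are those of `M`. The central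
values for the good numbers are not zero by sums of modular symbols modulo powers of two, and the
ranks of the twists are zero by descents (`Y687`, `U115`).
-/

set_option autoImplicit false

set_option linter.unusedVariables false

open NumberField IsDedekindDomain

namespace Pool.Agent.Results.MP_413b36_nt.AbelianFields

open scoped Classical

/-! ### The curves -/

/-- The quadratic twist `E_D` by `D = 1 mod 4` of the modular curve `E_1 = X_0(14)`,
`y² + x y + y = x³ + 4 x - 6`. -/
def twist (D : ℤ) : WeierstrassCurve ℤ :=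
  ⟨1, (D - 1) / 4, 1, (9 * D ^ 2 - 1) / 2, -((23 * D ^ 3 + 1) / 4)⟩

/-- The curve given by the equation of `W` over the ring `R`. -/
abbrev base (W : WeierstrassCurve ℤ) (R : Type) [CommRing R] : WeierstrassCurve R :=
  W.map (Int.castRingHom R)

/-- The number of the affine points `(x, y)` over the ring `R`. -/
noncomputable def pts (W : WeierstrassCurve ℤ) (R : Type) [CommRing R] : ℕ :=
  Nat.card {P : R × R // (base W R).toAffine.Equation P.1 P.2}

section

variable {K : Type} [Field K] [NumberField K]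

/-- `a_v = N v + 1 - #W(k_v)`, the points over the residue field `k_v` counted with the point at
infinity. -/
noncomputable def a (W : WeierstrassCurve ℤ) (v : HeightOneSpectrum (𝓞 K)) : ℤ :=
  (Ideal.absNorm v.asIdeal : ℤ) - pts W (𝓞 K ⧸ v.asIdeal)

/-- The Euler factor of `L(W/K, s)` at `v` : `(1 - a_v N v^(-s) + N v^(1 - 2 s))⁻¹` if the
discriminant is a unit at `v`, and `(1 - a_v N v^(-s))⁻¹` otherwise. -/
noncomputable def factor (W : WeierstrassCurve ℤ) (s : ℂ) (v : HeightOneSpectrum (𝓞 K)) : ℂ :=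
  (1 - (a W v : ℂ) * (Ideal.absNorm v.asIdeal : ℂ) ^ (-s) +
    if ((W.Δ : ℤ) : 𝓞 K) ∈ v.asIdeal then 0 else (Ideal.absNorm v.asIdeal : ℂ) ^ (1 - 2 * s))⁻¹

end

section

variable (K : Type) [Field K] [NumberField K]

/-- The rank of the group of the points over `K`. -/
noncomputable def rank (W : WeierstrassCurve ℤ) : ℕ := Module.finrank ℤ (base W K).toAffine.Point

/-- `Λ` is the continuation of the Euler product of `W` over `K` to an entire function, and its order
of vanishing at `s = 1` is the number `r`. -/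
def HasOrder (W : WeierstrassCurve ℤ) (Λ : ℂ → ℂ) (r : ℕ) : Prop :=
  Differentiable ℂ Λ ∧ (∀ s : ℂ, 3 / 2 < s.re → HasProd (factor (K := K) W s) (Λ s)) ∧
    analyticOrderAt Λ 1 = r

/-- The conjecture modulo two for `W` over `K`: the Euler product continues to an entire function, and
its order of vanishing at `s = 1` is congruent modulo two to the rank. -/
def ModTwo (W : WeierstrassCurve ℤ) : Prop :=
  ∃ (Λ : ℂ → ℂ) (r : ℕ), HasOrder K W Λ r ∧ r ≡ rank K W [MOD 2]

end

/-- The subfield of `K` generated by the square roots of the integers that lie in `K`. -/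
noncomputable def quadraticPart {L : Type} [Field L] [NumberField L] (K : IntermediateField ℚ L) :
    IntermediateField ℚ L :=
  IntermediateField.adjoin ℚ {z : L | z ∈ K ∧ ∃ e : ℤ, z ^ 2 = (e : L)}

/-! ### The criterion -/

/-- inert primes: `5` modulo `8` and not squares modulo `7` -/
def Inert (q : ℕ) : Prop := q.Prime ∧ q % 8 = 5 ∧ (q % 7 = 3 ∨ q % 7 = 5 ∨ q % 7 = 6)

/-- split primes: `1` modulo `8` and squares modulo `7` -/
def Split (p : ℕ) : Prop := p.Prime ∧ p % 8 = 1 ∧ (p % 7 = 1 ∨ p % 7 = 2 ∨ p % 7 = 4)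

/-- `m` is a product of different inert primes -/
def InertProduct (m : ℕ) : Prop := Squarefree m ∧ ∀ q : ℕ, q.Prime → q ∣ m → Inert q

/-- the number of the points over `ℤ/p` of the twist `E_m : y² = x³ + 5805 m² x - 285714 m³`, with the
point at infinity -/
noncomputable def points (m p : ℕ) : ℕ :=
  Nat.card {P : ZMod p × ZMod p // P.2 ^ 2 = P.1 ^ 3 + ((5805 * (m : ℤ) ^ 2 : ℤ) : ZMod p) * P.1 +
    ((-285714 * (m : ℤ) ^ 3 : ℤ) : ZMod p)} + 1

/-- `D` is a product `m` of different inert primes; or `p m` with a split prime `p` such that `8` does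
not divide `points m p`; or `p r m` with two different split primes such that `8` divides neither
`points m p` nor `points m r`, or `p` is not a square modulo `r` and `8` does not divide both of them -/
def Good (D : ℕ) : Prop :=
  InertProduct D ∨
  (∃ p m : ℕ, Split p ∧ InertProduct m ∧ D = p * m ∧ ¬ 8 ∣ points m p) ∨
  (∃ p r m : ℕ, p ≠ r ∧ Split p ∧ Split r ∧ InertProduct m ∧ D = p * r * m ∧
    ((¬ 8 ∣ points m p ∧ ¬ 8 ∣ points m r) ∨
      (¬ IsSquare (p : ZMod r) ∧ (¬ 8 ∣ points m p ∨ ¬ 8 ∣ points m r))))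

/-! ### Proofs -/

theorem prod_eq {m : ℕ} (h : InertProduct m) : ∏ q ∈ m.primeFactors, q = m :=
  Nat.prod_primeFactors_of_squarefree h.1

theorem all_inert {m : ℕ} (h : InertProduct m) :
    ∀ q ∈ m.primeFactors, Pool.Agent.Y687.Inert q := fun q hq =>
  h.2 q (Nat.prime_of_mem_primeFactors hq) (Nat.dvd_of_mem_primeFactors hq)

theorem good_GT {D : ℕ} (h : Good D) : Pool.Agent.U115.MQ.GT D := by
  rcases h with h | ⟨p, m, hp, hm, rfl, h⟩ | ⟨p, r, m, hne, hp, hr, hm, rfl, h⟩
  · left
    exact ⟨D.primeFactors, all_inert h, (prod_eq h).symm⟩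
  · right; left
    refine ⟨p, m.primeFactors, hp, all_inert hm, ?_, ?_⟩
    · rw [prod_eq hm]
      exact h
    · rw [prod_eq hm]
  · right; right
    refine ⟨p, r, m.primeFactors, hne, hp, hr, all_inert hm, ?_, ?_⟩
    · rw [prod_eq hm]
      exact h
    · rw [prod_eq hm]

theorem inert_mul {m l : ℕ} (hm : InertProduct m) (hl : InertProduct l) (hco : m.Coprime l) :
    InertProduct (m * l) := by
  refine ⟨(Nat.squarefree_mul hco).2 ⟨hm.1, hl.1⟩, fun q hq h => ?_⟩
  rcases hq.dvd_mul.1 h with h | h
  · exact hm.2 q hq h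
  · exact hl.2 q hq h

/-- twisting by a square does not change the number of the points -/
theorem points_mul {p l m : ℕ} (hp : p.Prime) (hl : ¬ p ∣ l) (h : IsSquare (l : ZMod p)) :
    points (m * l) p = points m p := by
  have : Fact p.Prime := ⟨hp⟩
  obtain ⟨t, ht⟩ := h
  have hl0 : (l : ZMod p) ≠ 0 := by
    rw [Ne, ZMod.natCast_eq_zero_iff]
    exact hl
  have ht0 : t ≠ 0 := by
    rintro rfl
    rw [mul_zero] at ht
    exact hl0 ht
  unfold points
  congr 1
  symm
  refine Nat.card_congr (Equiv.subtypeEquiv (Equiv.prodCongr (Equiv.mulLeft₀ (t ^ 2)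
    (pow_ne_zero 2 ht0)) (Equiv.mulLeft₀ (t ^ 3) (pow_ne_zero 3 ht0))) ?_)
  rintro ⟨x, y⟩
  simp only [Equiv.prodCongr_apply, Prod.map, Equiv.mulLeft₀_apply]
  push_cast
  rw [ht]
  have h6 : t ^ 6 ≠ 0 := pow_ne_zero 6 ht0
  constructor
  · intro h
    linear_combination t ^ 6 * h
  · intro h
    apply mul_left_cancel₀ h6
    linear_combination h

theorem not_dvd {p l : ℕ} (hp : Split p) (hl : InertProduct l) : ¬ p ∣ l := by
  intro h
  have h1 := (hl.2 p hp.1 h).2.1
  have h2 := hp.2.1
  omega

theorem good_mul {D l : ℕ} (h : Good D) (hl : InertProduct l) (hco : D.Coprime l)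
    (hsq : ∀ p : ℕ, Split p → p ∣ D → IsSquare (l : ZMod p)) : Good (D * l) := by
  rcases h with h | ⟨p, m, hp, hm, rfl, h⟩ | ⟨p, r, m, hne, hp, hr, hm, rfl, h⟩
  · exact Or.inl (inert_mul h hl hco)
  · refine Or.inr (Or.inl ⟨p, m * l, hp, inert_mul hm hl (Nat.Coprime.coprime_mul_left hco),
      mul_assoc _ _ _, ?_⟩)
    rw [points_mul hp.1 (not_dvd hp hl) (hsq p hp (dvd_mul_right _ _))]
    exact h
  · refine Or.inr (Or.inr ⟨p, r, m * l, hne, hp, hr,
      inert_mul hm hl (Nat.Coprime.coprime_mul_left hco), mul_assoc _ _ _, ?_⟩)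
    rw [points_mul hp.1 (not_dvd hp hl) (hsq p hp ((dvd_mul_right _ _).mul_right _)),
      points_mul hr.1 (not_dvd hr hl) (hsq r hr ((dvd_mul_left _ _).mul_right _))]
    exact h

theorem good_facts {D : ℕ} (h : Good D) : Squarefree D ∧ D % 4 = 1 ∧ D.Coprime 14 := by
  have h1 := good_GT h
  refine ⟨h1.sqf, h1.mod4, ?_⟩
  refine Nat.coprime_of_dvd fun p hp hpD hp14 => ?_
  obtain ⟨h4, h5⟩ := h1.prime4 hp hpD
  have h6 : p ∣ 2 * 7 := hp14
  rcases (hp.dvd_mul).1 h6 with h | h
  · rw [(Nat.prime_dvd_prime_iff_eq hp Nat.prime_two).1 h] at h4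
    omega
  · exact h5 ((Nat.prime_dvd_prime_iff_eq hp (by norm_num)).1 h)

theorem uniq {f g : ℂ → ℂ} (hf : Differentiable ℂ f) (hg : Differentiable ℂ g)
    (h : ∀ s : ℂ, 3 / 2 < s.re → f s = g s) : f = g := by
  have h1 : AnalyticOnNhd ℂ f Set.univ := fun z _ => hf.analyticAt z
  have h2 : AnalyticOnNhd ℂ g Set.univ := fun z _ => hg.analyticAt z
  refine AnalyticOnNhd.eq_of_eventuallyEq h1 h2 (z₀ := 2) ?_
  have h3 : {s : ℂ | 3 / 2 < s.re} ∈ nhds (2 : ℂ) := by
    refine (isOpen_lt continuous_const Complex.continuous_re).mem_nhds ?_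
    show (3 : ℝ) / 2 < (2 : ℂ).re
    norm_num
  exact Filter.eventually_of_mem h3 fun s hs => h s hs

theorem HasOrder.uniq {K : Type} [Field K] [NumberField K] {W : WeierstrassCurve ℤ} {Λ Λ' : ℂ → ℂ}
    {r r' : ℕ} (h : HasOrder K W Λ r) (h' : HasOrder K W Λ' r') : r = r' := by
  have h1 : Λ = Λ' := AbelianFields.uniq h.1 h'.1 fun s hs => (h.2.1 s hs).unique (h'.2.1 s hs)
  have h2 := h.2.2
  rw [h1, h'.2.2] at h2
  exact_mod_cast h2.symm

/-- **The Birch and Swinnerton-Dyer conjecture modulo two for the twists of `X_0(14)` over abelian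
fields.** -/
theorem result :
    (∀ D : ℤ, Squarefree D → D % 4 = 1 → D.natAbs.Coprime 14 →
      ∀ (n : ℕ) [NeZero n], n.Coprime 14 → n.Coprime D.natAbs →
      ∀ (L : Type) [Field L] [NumberField L] [IsCyclotomicExtension {n} ℚ L]
        (K : IntermediateField ℚ L),
      -- the reduction to the compositum of the quadratic subfields
      (∃ (Λ Λ₀ : ℂ → ℂ) (r r₀ : ℕ), HasOrder K (twist D) Λ r ∧
        HasOrder (quadraticPart K) (twist D) Λ₀ r₀ ∧ r ≡ r₀ [MOD 2] ∧
        rank K (twist D) ≡ rank (quadraticPart K) (twist D) [MOD 2] ∧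
        -- the criterion
        ((∀ e : ℤ, Squarefree e → (∃ z ∈ K, z ^ 2 = (e : L)) → ∃ m : ℕ, D * e = m ∧ Good m) →
          r₀ = 0 ∧ rank (quadraticPart K) (twist D) = 0 ∧ Even r ∧ Even (rank K (twist D)) ∧
          ModTwo K (twist D))) ∧
      (ModTwo K (twist D) ↔ ModTwo (quadraticPart K) (twist D))) ∧
    -- the families
    (∀ D : ℕ, Good D → ∀ (n : ℕ) [NeZero n], n.Coprime D →
      (∀ p : ℕ, p.Prime → p ∣ n → Inert p ∧
        ∀ r : ℕ, Split r → r ∣ D → IsSquare (p : ZMod r)) →
      ∀ (L : Type) [Field L] [NumberField L] [IsCyclotomicExtension {n} ℚ L]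
        (K : IntermediateField ℚ L), ModTwo K (twist D)) := by
  have main : ∀ D : ℤ, Squarefree D → D % 4 = 1 → D.natAbs.Coprime 14 →
      ∀ (n : ℕ) [NeZero n], n.Coprime 14 → n.Coprime D.natAbs →
      ∀ (L : Type) [Field L] [NumberField L] [IsCyclotomicExtension {n} ℚ L]
        (K : IntermediateField ℚ L),
      (∃ (Λ Λ₀ : ℂ → ℂ) (r r₀ : ℕ), HasOrder K (twist D) Λ r ∧
        HasOrder (quadraticPart K) (twist D) Λ₀ r₀ ∧ r ≡ r₀ [MOD 2] ∧
        rank K (twist D) ≡ rank (quadraticPart K) (twist D) [MOD 2] ∧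
        ((∀ e : ℤ, Squarefree e → (∃ z ∈ K, z ^ 2 = (e : L)) → ∃ m : ℕ, D * e = m ∧ Good m) →
          r₀ = 0 ∧ rank (quadraticPart K) (twist D) = 0 ∧ Even r ∧ Even (rank K (twist D)) ∧
          ModTwo K (twist D))) := by
    intro D hDsq hD4 hD14 n _ hn14 hnD L _ _ _ K
    have hn : Odd n := by
      rw [Nat.odd_iff]
      by_contra h
      have h1 : 2 ∣ n := by omega
      have h2 : 2 ∣ 1 := by
        rw [← hn14]
        exact Nat.dvd_gcd h1 (by norm_num)
      omega
    obtain ⟨Λ₀, Λ, h1, h2, h3, h4, a, b, h5, h6, h7, h8, h9⟩ :=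
      Pool.Agent.U621.PAR.main D hDsq hD4 hD14 n hn14 hnD L K (quadraticPart K)
        (Pool.Agent.U621.PAR.sqf_two hn K)
    have h7' := Nat.even_iff.1 h7
    have h8' : (rank K (twist D) + rank (quadraticPart K) (twist D)) % 2 = 0 := Nat.even_iff.1 h8
    have e1 : b ≡ a [MOD 2] := by
      show b % 2 = a % 2
      omega
    have e2 : rank K (twist D) ≡ rank (quadraticPart K) (twist D) [MOD 2] := by
      show rank K (twist D) % 2 = rank (quadraticPart K) (twist D) % 2
      omega
    refine ⟨Λ, Λ₀, b, a, ⟨h2, h4, h6⟩, ⟨h1, h3, h5⟩, e1, e2, fun hg => ?_⟩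
    obtain ⟨e3, e4⟩ := h9 fun e he hz => by
      obtain ⟨m, hm, hm2⟩ := hg e he hz
      exact ⟨m, hm, good_GT hm2⟩
    have e4' : rank (quadraticPart K) (twist D) = 0 := e4
    have e5 : Even b := by
      rw [Nat.even_iff]
      omega
    have e6 : Even (rank K (twist D)) := by
      rw [Nat.even_iff]
      omega
    refine ⟨e3, e4', e5, e6, Λ, b, ⟨h2, h4, h6⟩, ?_⟩
    show b % 2 = rank K (twist D) % 2
    rw [Nat.even_iff.1 e5, Nat.even_iff.1 e6]
  refine ⟨?_, ?_⟩
  · intro D hDsq hD4 hD14 n _ hn14 hnD L _ _ _ K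
    have hm := main D hDsq hD4 hD14 n hn14 hnD L K
    refine ⟨hm, ?_⟩
    obtain ⟨Λ, Λ₀, r, r₀, h1, h2, h3, h4, -⟩ := hm
    constructor
    · rintro ⟨Λ', r', h5, h6⟩
      rw [h5.uniq h1] at h6
      exact ⟨Λ₀, r₀, h2, (h3.symm.trans h6).trans h4⟩
    · rintro ⟨Λ', r', h5, h6⟩
      rw [h5.uniq h2] at h6
      exact ⟨Λ, r, h1, (h3.trans h6).trans h4.symm⟩
  · intro D hD n _ hnD hn L _ _ _ K
    obtain ⟨hDsq, hD4, hD14⟩ := good_facts hD
    have hn14 : n.Coprime 14 := by
      refine Nat.coprime_of_dvd fun p hp hpn hp14 => ?_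
      obtain ⟨-, h8, h7⟩ := (hn p hp hpn).1
      have h6 : p ∣ 2 * 7 := hp14
      rcases (hp.dvd_mul).1 h6 with h | h
      · rw [(Nat.prime_dvd_prime_iff_eq hp Nat.prime_two).1 h] at h8
        omega
      · rw [(Nat.prime_dvd_prime_iff_eq hp (by norm_num)).1 h] at h7
        omega
    have hnodd : Odd n := by
      rw [Nat.odd_iff]
      by_contra h
      have h1 : 2 ∣ n := by omega
      have h2 : 2 ∣ 1 := by
        rw [← hn14]
        exact Nat.dvd_gcd h1 (by norm_num)
      omega
    obtain ⟨Λ, Λ₀, r, r₀, h1, h2, h3, h4, h5⟩ := main (D : ℤ)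
      (by rw [← Int.squarefree_natAbs, Int.natAbs_natCast]; exact hDsq) (by omega)
      (by rw [Int.natAbs_natCast]; exact hD14) n hn14 (by rw [Int.natAbs_natCast]; exact hnD) L K
    refine (h5 fun e he hz => ?_).2.2.2.2
    obtain ⟨z, -, hz⟩ := hz
    obtain ⟨T, hT, rfl⟩ := Pool.Agent.U621.PAR.sqrt_disc (q := n) hnodd he hz
    have hTI : ∀ p ∈ T, Inert p := fun p hp =>
      (hn p (Nat.prime_of_mem_primeFactors (hT hp)) (Nat.dvd_of_mem_primeFactors (hT hp))).1
    have hdisc : Pool.Agent.Y18.BSD.disc T = ((∏ p ∈ T, p : ℕ) : ℤ) := by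
      unfold Pool.Agent.Y18.BSD.disc
      push_cast
      refine Finset.prod_congr rfl fun p hp => ?_
      have h6 := (hTI p hp).2.1
      have h7 : Even ((p - 1) / 2) := by
        rw [Nat.even_iff]
        omega
      rw [h7.neg_one_pow, one_mul]
    have hTsub : (∏ p ∈ T, p) ∣ n :=
      Finset.prod_primes_dvd _ (fun p hp => (Nat.prime_of_mem_primeFactors (hT hp)).prime)
        fun p hp => Nat.dvd_of_mem_primeFactors (hT hp)
    refine ⟨D * ∏ p ∈ T, p, by rw [hdisc]; push_cast; ring, good_mul hD ⟨?_, ?_⟩ ?_ ?_⟩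
    · have h6 := Pool.Agent.Y18.BSD.dd_sqfree (T := T) fun p hp => (hTI p hp).1
      exact h6
    · intro q hq hqT
      obtain ⟨p, hp, hqp⟩ := (hq.prime.dvd_finsetProd_iff _).1 hqT
      rw [(Nat.prime_dvd_prime_iff_eq hq (hTI p hp).1).1 hqp]
      exact hTI p hp
    · exact Nat.Coprime.coprime_dvd_right hTsub hnD.symm
    · intro r hr hrD
      push_cast
      refine Finset.prod_induction _ (fun x : ZMod r => IsSquare x) (fun a b ha hb => ha.mul hb)
        IsSquare.one fun p hp => ?_
      exact (hn p (Nat.prime_of_mem_primeFactors (hT hp))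
        (Nat.dvd_of_mem_primeFactors (hT hp))).2 r hr hrD

end Pool.Agent.Results.MP_413b36_nt.AbelianFields
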