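import Pool.Agent.Results.MP_ac3185_nt.OddExtensionsOfTowers
import Pool.Agent.U80.OG.Cyc

/-!
# The Birch and Swinnerton-Dyer conjecture modulo two over the abelian number fields whose quadratic subfields lie
# in infinite towers, for every elliptic curve with a point of order two and minimal Selmer groups

Let `E : y² = x³ + a x² + b x` with integers `a`, `b` such that `b` and `a² - 4b` are not squares, and let
`E_D : y² = x³ + a D x² + b D² x` be its quadratic twist, `D` squarefree and prime to `2 b (a² - 4b)`. Let
`s(E_D) ≥ 0` be the Selmer rank of the descent via the isogeny of degree two. Let `K_∞(D)` be the field generated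
by the square roots of the tower primes: the primes `q ≡ 1 mod 8` not dividing `D` such that `b` and `a² - 4b` are
not squares modulo `q`, and `q` is a square modulo the odd primes dividing `b(a² - 4b)` that are not neutral
and modulo the prime factors `p` of `D` with `b` or `a² - 4b` a square modulo `p` (see
`MP_78d38b_nt/TowersEveryCurve`; the field `K_∞(D)` has infinite degree if there are neutral primes).

Let `K` be an abelian number field. The completed `L`-function of `E_D` over `K` is entire and satisfies the
functional equation with the sign `w(E_D/K) = ∏_v w(E_D/K_v)` (modularity), so that the congruence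
`ord_{s=1} Λ(E_D/K, s) ≡ rk E_D(K) mod 2` is equivalent to `(-1) ^ rk E_D(K) = w(E_D/K)`. We show:

* If `s(E_D) = 0`, then `(-1) ^ rk E_D(K) = w(E_D/K)` is true, unconditionally, for ALL the abelian number
  fields `K ⊆ ℂ` (the Galois group, the ramification and the degree are arbitrary, the rank can be positive)
  whose quadratic subfields lie in `K_∞(D)`, if the degree of `K ∩ K_∞(D)` is at least four: the rank is
  even and the root number is `1`.
* Such fields are ALL the subfields of the `n`-th cyclotomic fields, `n` any product of powers of tower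
  primes, with `[K ∩ K_∞(D) : ℚ] ≥ 4`.
* If `s(E) = 0`, this is so for at least the proportion `∏_{i ≥ 0} (1 - 2^{-(2i+1)}) = 0.4194...` of the `D` of
  the class (the squarefree `D ≡ 1 mod 8` that are nonzero squares modulo the odd primes dividing
  `b(a² - 4b)`, with split and inert prime factors). The curve `y² = x³ + 7 x² + 7 x` is an example.

The local root numbers `w(E / K_v)` are signs; they are `1` if `E` has good reduction at `v` and `-1` if `E` has
split multiplicative reduction at `v`; and since `E` is defined over `ℚ` they are the same for conjugate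
primes, for which the completions are isomorphic. These properties are all that we use, that is, we prove the
equality for every function `w` with these properties (definitions of helper922, as in
`MP_02f36d_nt/ParityOverTwoExtensions`).

The proof. (1) The elements of `K` fixed by all the squares of automorphisms are sums of square roots of rational
numbers, so they lie in `M = K ∩ K_∞(D)`, and `E_D(M)` is finite by the theorem of
`MP_78d38b_nt/TowersEveryCurve`. By the theorem of helper621 on the actions of abelian groups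
(`U621/PAR/Grp`) the rank of `E_D(K)` is even. (2) The root number is `1` by
`MP_ac3185_nt/OddExtensionsOfTowers`, part (1), where `K` is any Galois number field. (3) The square roots in the
cyclotomic fields are found with Gauss sums (`U80/OG/Cyc`, after `U621/PAR/Quad`).
-/

set_option autoImplicit false

open scoped Classical

open WeierstrassCurve NumberField IsDedekindDomain

namespace Pool.Agent.Results.MP_413b36_nt.AbelianFieldsOverTowers

open Pool.Agent.N922.PX (LocalRootNumbers rootNumber)
open Pool.Agent.Results.MP_78d38b_nt.TowersEveryCurve (curve rank s Twist TowerPrime Tower HasNeutral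
  Class Numbers cc)

/-- the conjecture modulo two holds for `E_D` over `K`, with even rank and root number `1`: for every system
of local root numbers (such systems exist, and only finitely many of the numbers are not `1`)
`(-1) ^ rank = w(E_D / K)` -/
structure ParityHolds (a b : ℤ) (D : ℕ) (K : Type) [Field K] [NumberField K] : Prop where
  even : Even (rank a b D K)
  exist : ∃ w, LocalRootNumbers K (curve a b D ℚ) w
  almost : ∀ w, LocalRootNumbers K (curve a b D ℚ) w → {v | w v ≠ 1}.Finite
  one : ∀ w, LocalRootNumbers K (curve a b D ℚ) w → rootNumber K w = 1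
  parity : ∀ w, LocalRootNumbers K (curve a b D ℚ) w → (-1) ^ rank a b D K = rootNumber K w

/-- all the square roots of rational numbers in `K` lie in the tower -/
def QuadraticInTower (a b : ℤ) (D : ℕ) (K : IntermediateField ℚ ℂ) : Prop :=
  ∀ z ∈ K, (∃ c : ℚ, z ^ 2 = (c : ℂ)) → z ∈ Tower a b D

/-- the conjecture modulo two for `E_D` over all the abelian number fields whose quadratic subfields lie in the
tower, if the intersection with the tower has degree at least four -/
def AllFields (a b : ℤ) (D : ℕ) : Prop :=
  ∀ (K : IntermediateField ℚ ℂ) [NumberField K] [IsAbelianGalois ℚ K], QuadraticInTower a b D K →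
    4 ≤ Module.finrank ℚ (K ⊓ Tower a b D : IntermediateField ℚ ℂ) → ParityHolds a b D K

section proof

theorem parity_of {a b : ℤ} (nb : ¬ IsSquare b) (nc : ¬ IsSquare (a ^ 2 - 4 * b)) {D : ℕ}
    (hD : Twist a b D) (h0 : s a b D = 0) : AllFields a b D := by
  have hb0 : b ≠ 0 := by
    rintro rfl
    exact nb ⟨0, by norm_num⟩
  have hc0 : a ^ 2 - 4 * b ≠ 0 := by
    intro h
    exact nc ⟨0, by rw [h]; norm_num⟩
  intro K hNK hG hquad h4
  have hD0 : (D : ℤ) ≠ 0 := by exact_mod_cast hD.1.ne_zero
  have hMK : (K ⊓ Tower a b D : IntermediateField ℚ ℂ) ≤ K := inf_le_left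
  haveI hfd : FiniteDimensional ℚ (K ⊓ Tower a b D : IntermediateField ℚ ℂ) :=
    FiniteDimensional.of_injective (IntermediateField.inclusion hMK).toLinearMap
      (IntermediateField.inclusion hMK).injective
  obtain ⟨hN, h2, h1⟩ :=
    (Pool.Agent.Results.MP_78d38b_nt.TowersEveryCurve.result.1 a b nb nc).1 D hD _
      (inf_le_right : (K ⊓ Tower a b D : IntermediateField ℚ ℂ) ≤ Tower a b D) hfd
  obtain ⟨-, h3, -⟩ := h1 h0
  have hB : b * (D : ℤ) ^ 2 ≠ 0 := mul_ne_zero hb0 (pow_ne_zero _ hD0)
  have hC : (a * D) ^ 2 - 4 * (b * (D : ℤ) ^ 2) ≠ 0 := by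
    have e : (a * D) ^ 2 - 4 * (b * (D : ℤ) ^ 2) = (a ^ 2 - 4 * b) * (D : ℤ) ^ 2 := by ring
    rw [e]
    exact mul_ne_zero hc0 (pow_ne_zero _ hD0)
  have hab : ∀ σ τ : K ≃ₐ[ℚ] K, σ * τ = τ * σ := fun σ τ => mul_comm' σ τ
  have hev : Even (rank a b D K) :=
    Pool.Agent.U80.OG.rank_even_ab (A := a * D) (B := b * (D : ℤ) ^ 2) hB hC K _ hab hMK
      (fun z hz hc => ⟨hz, hquad z hz (by
        obtain ⟨c, hc⟩ := hc
        exact ⟨c, hc⟩)⟩) h3
  have hroot : ∀ w, LocalRootNumbers K (curve a b D ℚ) w →
      {v | w v ≠ 1}.Finite ∧ rootNumber K w = 1 := fun w hw =>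
    Pool.Agent.Results.MP_ac3185_nt.OddExtensionsOfTowers.root_of hb0 hc0 hD K h4 hw
  refine ⟨hev, Pool.Agent.N922.PX.exists_local K _, fun w hw => (hroot w hw).1,
    fun w hw => (hroot w hw).2, fun w hw => ?_⟩
  rw [hev.neg_one_pow, (hroot w hw).2]

open Pool.Agent.U80.MQ (wt wt_sq rt rt_sq)

theorem cyclotomic {a b : ℤ} {D n : ℕ} (hn : n ≠ 0)
    (hp : ∀ p : ℕ, p.Prime → p ∣ n → TowerPrime a b D p) (K : IntermediateField ℚ ℂ)
    (hK : K ≤ IntermediateField.adjoin ℚ {x : ℂ | x ^ n = 1}) :
    NumberField K ∧ IsAbelianGalois ℚ K ∧ QuadraticInTower a b D K := by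
  have : NeZero n := ⟨hn⟩
  have hLc := Pool.Agent.U80.OG.isCyc hn
  have hLN : NumberField (IntermediateField.adjoin ℚ {x : ℂ | x ^ n = 1}) :=
    IsCyclotomicExtension.numberField {n} ℚ _
  have hLA := IsCyclotomicExtension.isAbelianGalois {n} ℚ
    (IntermediateField.adjoin ℚ {x : ℂ | x ^ n = 1})
  haveI hfd : FiniteDimensional ℚ K :=
    FiniteDimensional.of_injective (IntermediateField.inclusion hK).toLinearMap
      (IntermediateField.inclusion hK).injective
  refine ⟨{ to_charZero := inferInstance, to_finiteDimensional := hfd },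
    @IsAbelianGalois.of_algHom ℚ K (IntermediateField.adjoin ℚ {x : ℂ | x ^ n = 1}) _ _ _ _ _
      (IntermediateField.inclusion hK) hLA, fun z hz hc => ?_⟩
  obtain ⟨c, hc⟩ := hc
  obtain ⟨r, T, hT, rfl⟩ := Pool.Agent.U80.OG.sqrt_cyc hn (fun p hpp hpn => by
    have := (hp p hpp hpn).2.1
    omega) (hK hz) hc
  refine (Tower a b D).mul_mem ((Tower a b D).algebraMap_mem r) ?_
  unfold wt
  refine prod_mem fun q hq => IntermediateField.subset_adjoin _ _ ⟨q, ?_, rt_sq q⟩
  exact hp q (Nat.prime_of_mem_primeFactors (hT hq)) (Nat.dvd_of_mem_primeFactors (hT hq))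

end proof

/-- **Theorem.** -/
theorem result :
    (∀ a b : ℤ, ¬ IsSquare b → ¬ IsSquare (a ^ 2 - 4 * b) →
      (∀ D : ℕ, Twist a b D → s a b D = 0 → AllFields a b D) ∧
      (∀ D n : ℕ, n ≠ 0 → (∀ p : ℕ, p.Prime → p ∣ n → TowerPrime a b D p) →
        ∀ K : IntermediateField ℚ ℂ, K ≤ IntermediateField.adjoin ℚ {x : ℂ | x ^ n = 1} →
          NumberField K ∧ IsAbelianGalois ℚ K ∧ QuadraticInTower a b D K) ∧
      (HasNeutral a b → ∀ D : ℕ, Twist a b D →
        {q : ℕ | TowerPrime a b D q}.Infinite ∧ ¬ FiniteDimensional ℚ (Tower a b D)) ∧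
      (∀ D : ℕ, Class a b D → Twist a b D) ∧
      (s a b 1 = 0 → ∀ x : ℝ, x < cc → ∀ᶠ X : ℕ in Filter.atTop,
        x * ((Numbers a b (fun _ => True) X).card : ℝ) ≤
          ((Numbers a b (AllFields a b) X).card : ℝ))) ∧
    0.4194 < cc ∧ cc < 0.4195 ∧ s 7 7 1 = 0 ∧ HasNeutral 7 7 := by
  obtain ⟨hall, h1, h2, h3, h4⟩ := Pool.Agent.Results.MP_78d38b_nt.TowersEveryCurve.result
  refine ⟨fun a b nb nc => ?_, h1, h2, h3, h4⟩
  obtain ⟨-, g2, g3, g4⟩ := hall a b nb nc
  refine ⟨fun D hD h0 => parity_of nb nc hD h0, fun D n hn hp K hK => cyclotomic hn hp K hK,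
    g2, fun D hD => (g3 D hD).1, fun hs x hx => ?_⟩
  filter_upwards [g4.eventually_const_lt hx] with X hX
  have hle : ((Numbers a b (fun D => s a b D = s a b 1) X).card : ℝ) ≤
      ((Numbers a b (AllFields a b) X).card : ℝ) := by
    refine Nat.cast_le.2 (Finset.card_le_card fun D hD => ?_)
    rw [Pool.Agent.Results.MP_78d38b_nt.TowersEveryCurve.mem_num] at hD ⊢
    exact ⟨hD.1, hD.2.1, parity_of nb nc (g3 D hD.2.1).1 (hD.2.2.trans hs)⟩
  rcases Nat.eq_zero_or_pos (Numbers a b (fun _ => True) X).card with h | h
  · rw [h, Nat.cast_zero, mul_zero]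
    exact Nat.cast_nonneg _
  · have h5 : (0 : ℝ) < ((Numbers a b (fun _ => True) X).card : ℝ) := by exact_mod_cast h
    exact ((lt_div_iff₀ h5).1 hX).le.trans hle

end Pool.Agent.Results.MP_413b36_nt.AbelianFieldsOverTowers
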