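import Mathlib
import Pool.Agent.U974.TW.Fld4

/-!
# The Birch and Swinnerton-Dyer conjecture modulo two over the fields generated by the square roots of prime tuples,
# for a positive proportion of all tuples of shifts

`E_D : y² = x³ - 35 D² x - 98 D³` is the twist of `X_0(49)` by `D`; `T` is ANY finite set of primes `≡ 1 mod 4`
(for instance the empty set) and `N` any number prime to `7`.

There are an auxiliary prime `r ≡ 1 mod 4 N`, inert in `ℚ(√-7)`, and a bound `B` such that in EVERY set `W` of at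
least `δ x` integers of `[0, x]` at least the proportion `c(δ) > 0` of all the `x ^ m` vectors `h_1 < ... < h_m` have
their entries in `W` and satisfy: for EVERY graph `G` with the vertices `1, ..., m` there is `d ∈ {1, r}` such that
for infinitely many `n` the numbers `p_i = n + h_i` are primes, `1` modulo `28 N`, at most `B` primes lie at distance
at most `Y` from `n` (for every `Y`), and, for ALL `U, J ⊆ T` with `E_M(ℚ)` finite and `Ш(E_M/ℚ)[2] = 0` for the
`M = ∏ (U ∆ V)`, `V ⊆ J`, the conjecture modulo two holds for `E_D` over `K`, that is, the Euler product of `E_D` over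
`K` continues to an entire function, whose order at `s = 1` has the parity of the rank of `E_D(K)`, for

* ALL number fields `K ⊆ ℚ(√q : q ∈ J)` and ALL `D = d ∏ U ∏_S p_i` for which the number of the rooted spanning
  forests of `G[S]` is odd (the fields are fixed, the curves vary);
* ALL number fields `K ⊆ ℚ(√p_i : i ∈ S; √q : q ∈ J)` and ALL `D = d ∏ U ∏_{S'} p_i`, `S' ⊆ S`, if every vertex of
  `S` has at most one neighbour in `S`, for instance for the graph without edges (fields generated by the square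
  roots of the new primes).

In all these cases both numbers are `0`, and `E_D(K)` is finite.

Proof. `Pool/Agent/U974/PP` (Maynard–Tao, Ramsey, Paley graphs; a positive proportion of all tuples), the 2-descent
for twists of `X_0(49)` by products of a subset of `T`, a subset of the tuple and `d` (`U974/TW/Fld1`, `Fld3`,
`Fld4`), and the passage from the twists to the fields of helper80 (`U80/MQ`, with helper120's `U120/MF`).
-/

set_option autoImplicit false

open scoped Classical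

open WeierstrassCurve NumberField IsDedekindDomain
open scoped symmDiff

namespace Pool.Agent.Results.MP_413b36_nt.PrimeTupleFields

open Pool.Agent.TH841.NF.D (Sha)

/-- the coefficient of `x` -/
def A (D : ℕ) : ℤ := -35 * (D : ℤ) ^ 2

/-- the constant coefficient -/
def B (D : ℕ) : ℤ := -98 * (D : ℤ) ^ 3

/-- the curve `y² = x³ - 35 D² x - 98 D³` over `K` -/
def curve (D : ℕ) (K : Type) [Field K] : WeierstrassCurve K :=
  { a₁ := 0, a₂ := 0, a₃ := 0, a₄ := ((A D : ℤ) : K), a₆ := ((B D : ℤ) : K) }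

/-- `E_D(ℚ)` is finite and `Ш(E_D/ℚ)` has no element of order two -/
def TrivialTwo (D : ℕ) : Prop :=
  Finite (curve D ℚ).toAffine.Point ∧ ∀ x : Sha (curve D ℚ), 2 • x = 0 → x = 0

/-- `a_v = q_v + 1 - #E(k_v) = q_v - #{(x, y) ∈ k_v² : y² = x³ + a x + b}` -/
noncomputable def trace {K : Type} [Field K] [NumberField K] (a b : ℤ)
    (v : HeightOneSpectrum (𝓞 K)) : ℤ :=
  ((Ideal.absNorm v.asIdeal : ℕ) : ℤ) -
    ((Nat.card {x : (𝓞 K ⧸ v.asIdeal) × (𝓞 K ⧸ v.asIdeal) //
      x.2 ^ 2 = x.1 ^ 3 + (a : 𝓞 K ⧸ v.asIdeal) * x.1 + (b : 𝓞 K ⧸ v.asIdeal)} : ℕ) : ℤ)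

/-- the Euler factor at `v` of `y² = x³ + a x + b`; it is `1` at the places that divide
`2 (4 a³ + 27 b²)` -/
noncomputable def factor {K : Type} [Field K] [NumberField K] (a b : ℤ) (s : ℂ)
    (v : HeightOneSpectrum (𝓞 K)) : ℂ :=
  if ((2 * (4 * a ^ 3 + 27 * b ^ 2) : ℤ) : 𝓞 K) ∈ v.asIdeal then 1 else
    (1 - ((trace a b v : ℤ) : ℂ) * ((Ideal.absNorm v.asIdeal : ℕ) : ℂ) ^ (-s)
      + ((Ideal.absNorm v.asIdeal : ℕ) : ℂ) ^ (1 - 2 * s))⁻¹

/-- The conjecture modulo two for `E_D` over `K`: the Euler product of `E_D` over `K` (without the factors at the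
places which divide `2 (4 A³ + 27 B²)`) continues to an entire function `Λ`, whose order of vanishing at `s = 1` is a
number `ρ` that has the same parity as the rank of `E_D(K)`. -/
def ModTwo (D : ℕ) (K : Type) [Field K] [NumberField K] : Prop :=
  ∃ (Λ : ℂ → ℂ) (ρ : ℕ), Differentiable ℂ Λ ∧
    (∀ s : ℂ, (3 : ℝ) / 2 < s.re → HasProd (factor (K := K) (A D) (B D) s) (Λ s)) ∧
    analyticOrderAt Λ 1 = ρ ∧ ρ ≡ Module.finrank ℤ (curve D K).toAffine.Point [MOD 2]

/-- the field generated by the square roots of the elements of `J` -/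
noncomputable def Roots (J : Finset ℕ) : IntermediateField ℚ ℂ :=
  IntermediateField.adjoin ℚ {z : ℂ | ∃ q ∈ J, z ^ 2 = (q : ℂ)}

/-- the determinant of the matrix `1 + Laplacian` of the subgraph of `G` induced on `S` is odd -/
def OddForests {m : ℕ} (G : SimpleGraph (Fin m)) (S : Finset (Fin m)) : Prop :=
  ((1 : Matrix (S : Set (Fin m)) (S : Set (Fin m)) (ZMod 2)) +
    (G.induce (S : Set (Fin m))).lapMatrix (ZMod 2)).det ≠ 0

/-- every vertex of `S` has at most one neighbour in `S` -/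
def Matching {m : ℕ} (G : SimpleGraph (Fin m)) (S : Finset (Fin m)) : Prop :=
  ∀ i ∈ S, ∀ j ∈ S, ∀ k ∈ S, G.Adj i j → G.Adj i k → j = k

/-- the sets `U ⊆ T` with `E_M(ℚ)` finite and `Ш(E_M/ℚ)[2] = 0` for all `M = ∏ (U ∆ V)`, `V ⊆ J` -/
def Base (T J : Finset ℕ) : Set (Finset ℕ) :=
  {U | U ⊆ T ∧ ∀ V, V ⊆ J → TrivialTwo (∏ q ∈ U ∆ V, q)}

/-- the property of the tuple `h`: for every graph `G` there is `d ∈ {1, r}` such that for infinitely many `n` the
numbers `n + h i` are primes, `1` modulo `28 N`, with at most `B` primes at distance at most `Y` from `n` (for every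
`Y`), and the conjecture modulo two holds (and `E_D(K)` is finite) over the fields described
above, for all `J ⊆ T` -/
def AllFields (T : Finset ℕ) (N r B : ℕ) {m : ℕ} (h : Fin m → ℕ) : Prop :=
  ∀ G : SimpleGraph (Fin m), ∃ d : ℕ, (d = 1 ∨ d = r) ∧ ∀ Y : ℕ,
    {n : ℕ | (∀ i, (n + h i).Prime ∧ n + h i ≡ 1 [MOD 28 * N]) ∧
      {p : ℕ | p.Prime ∧ |(p : ℤ) - n| ≤ Y}.ncard ≤ B ∧
      ∀ J : Finset ℕ, J ⊆ T → ∀ U ∈ Base T J,
        (∀ K : IntermediateField ℚ ℂ, K ≤ Roots J → ∃ _ : NumberField K,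
          ∀ S : Finset (Fin m), OddForests G S →
            ModTwo ((∏ q ∈ U, q) * (d * ∏ i ∈ S, (n + h i))) K ∧
              Finite (curve ((∏ q ∈ U, q) * (d * ∏ i ∈ S, (n + h i))) K).toAffine.Point) ∧
        (∀ S : Finset (Fin m), Matching G S →
          ∀ K : IntermediateField ℚ ℂ, K ≤ Roots (J ∪ S.image (fun i => n + h i)) → ∃ _ : NumberField K,
            ∀ S' : Finset (Fin m), S' ⊆ S →
              ModTwo ((∏ q ∈ U, q) * (d * ∏ i ∈ S', (n + h i))) K ∧
                Finite (curve ((∏ q ∈ U, q) * (d * ∏ i ∈ S', (n + h i))) K).toAffine.Point)}.Infinite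

section proof

open Pool.Agent.U974.TW

theorem numberField {J : Finset ℕ} (K : IntermediateField ℚ ℂ) (hK : K ≤ Roots J) : NumberField K := by
  obtain ⟨n, _, _, _, _, _, _, h⟩ := Pool.Agent.U80.MQ.exists_gens K hK
  exact { to_charZero := inferInstance
          to_finiteDimensional := Module.finite_of_finrank_pos (by rw [h]; positivity) }

theorem modTwo_of {D : ℕ} {K : Type} [Field K] [NumberField K]
    (h : Finite (Pool.Agent.U80.MQ.tc D K).toAffine.Point ∧
      (∃ G : ℂ → ℂ, Differentiable ℂ G ∧ (∀ s : ℂ, 3 / 2 < s.re →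
        HasProd (Pool.Agent.U80.MQ.factor (K := K) (Pool.Agent.U80.MQ.A D)
          (Pool.Agent.U80.MQ.B D) s) (G s)) ∧ G 1 ≠ 0) ∧
      ∀ (k : ℕ) (x : Sha (Pool.Agent.U80.MQ.tc D K)), (2 ^ k : ℕ) • x = 0 → Module.finrank ℚ K • x = 0) :
    ModTwo D K ∧ Finite (curve D K).toAffine.Point := by
  obtain ⟨hfin, ⟨G, g1, g2, g3⟩, -⟩ := h
  have hfin' : Finite (curve D K).toAffine.Point := hfin
  have hrk : Module.finrank ℤ (curve D K).toAffine.Point = 0 := Pool.Agent.U80.MQ.finrank_fin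
  refine ⟨⟨G, 0, g1, fun s hs => g2 s hs, ?_, ?_⟩, hfin'⟩
  · exact (g1.analyticAt 1).analyticOrderAt_eq_zero.2 g3
  · rw [hrk]

end proof

/-- **The conjecture modulo two over the fields generated by the square roots of prime tuples.** -/
theorem result (m N : ℕ) (hN : 0 < N) (h7 : N.Coprime 7) (T : Finset ℕ)
    (hT : ∀ q ∈ T, q.Prime ∧ q % 4 = 1) :
    TrivialTwo 1 ∧
    ∃ r B : ℕ, r.Prime ∧ r ≡ 1 [MOD 4 * N] ∧ r % 7 = 3 ∧ ∀ δ : ℝ, 0 < δ → ∃ c : ℝ, 0 < c ∧
      ∃ x₀ : ℕ, ∀ x : ℕ, x₀ ≤ x → ∀ W : Finset ℕ, (∀ w ∈ W, w ≤ x) → δ * x ≤ W.card →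
        c * (x : ℝ) ^ m ≤ ({h : Fin m → ℕ | StrictMono h ∧ (∀ i, h i ∈ W) ∧
          AllFields T N r B h}.ncard : ℝ) := by
  refine ⟨?_, ?_⟩
  · have h1 := (Pool.Agent.U120.MF.tt_gd (U := (∅ : Finset ℕ))
      (fun p hp => absurd hp (Finset.notMem_empty _))).2 (by
      intro x _ p hp
      exact absurd hp (Finset.notMem_empty _))
    rw [Finset.prod_empty] at h1
    exact h1
  obtain ⟨r, hr1, hr2, hr3, B, hB⟩ := Pool.Agent.U974.TW.relP m N hN h7 T hT
  refine ⟨r, B, hr1, hr2, hr3, fun δ hδ => ?_⟩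
  obtain ⟨c, hc, x₀, hx⟩ := hB δ hδ
  refine ⟨c, hc, x₀, fun x hxx W hW hWc => (hx x hxx W hW hWc).trans ?_⟩
  have hfin : {h : Fin m → ℕ | StrictMono h ∧ (∀ i, h i ∈ W) ∧ AllFields T N r B h}.Finite := by
    refine (Fintype.piFinset (fun _ : Fin m => W)).finite_toSet.subset ?_
    rintro h ⟨-, h2, -⟩
    rw [Finset.mem_coe, Fintype.mem_piFinset]
    exact h2
  have hsub : {h : Fin m → ℕ | StrictMono h ∧ (∀ i, h i ∈ W) ∧ Pool.Agent.U974.TW.AllCfg N B T r h} ⊆
      {h : Fin m → ℕ | StrictMono h ∧ (∀ i, h i ∈ W) ∧ AllFields T N r B h} := by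
    rintro h ⟨g1, g2, g3⟩
    refine ⟨g1, g2, fun G => ?_⟩
    obtain ⟨c, hc⟩ := g3 G
    obtain ⟨β, hβ1, hβ2⟩ := Pool.Agent.U974.TW.exists_flip c
    refine ⟨if β then r else 1, ?_, fun Y => (hc Y).mono ?_⟩
    · cases β
      · exact Or.inl rfl
      · exact Or.inr rfl
    · rintro n ⟨k1, k2, k3⟩
      refine ⟨fun i => ⟨k1.prime i, k2 i⟩, k3, ?_⟩
      rintro J hJ U ⟨hU, hUJ⟩
      refine ⟨fun K hK => ?_, fun S hS K hK => ?_⟩
      · have hnf : NumberField K := numberField K hK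
        refine ⟨hnf, fun S hS => modTwo_of ?_⟩
        exact k1.field hU hJ hUJ β S (by
          rw [hβ1, Pool.Agent.U974.TW.ker_iff]
          exact hS) K hK _ rfl
      · have hnf : NumberField K := numberField K hK
        refine ⟨hnf, fun S' hS' => modTwo_of ?_⟩
        exact k1.field2 hU hJ hUJ β S (fun S'' hS'' => by
          rw [hβ1]
          exact Pool.Agent.U974.TW.Match.ker (Pool.Agent.U974.TW.Match.mono hS hS'')) S' hS' K hK _ rfl
  exact_mod_cast Set.ncard_le_ncard hsub hfin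

end Pool.Agent.Results.MP_413b36_nt.PrimeTupleFields
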