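import Pool.Agent.Results.MP_50bb2e_nt.PrimeTwistsOverAllFields

/-!
# The Birch and Swinnerton-Dyer conjecture modulo two over all the subfields of a multiquadratic field
# for the successive prime twists of `X_0(49)`

`E_D : y² = x³ - 35 D² x - 98 D³` is the quadratic twist by `D` of `X_0(49)`, `P` is a finite set of primes
`1 mod 4`, `Ω = ℚ(√q : q ∈ P)`, a totally real field of degree `2 ^ |P|`. We suppose that for the
products `∏ S`, `S ⊆ P`, `E_{∏ S}(ℚ)` is finite and `Ш(E_{∏ S}/ℚ)[2] = 0`; this is always true if the
elements of `P` are inert in `ℚ(√-7)`.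

`D` is ANY product of different primes `1 mod 4`, not in `P`, of two kinds: those which split in
`ℚ(√-7)` and are squares modulo all the elements of `P`, and those which are inert in `ℚ(√-7)` and
are squares modulo the elements of `P` that split. We twist `E_D` successively by primes of the two
kinds in any given order, the last one being inert: `N = D p_k ⋯ p_0`, and take means over the primes
`p_0` up to `X`, `X → ∞`, then over `p_1`, …, at last over `p_k`.

With iterated lower density at least the probability of `0` after `t` steps of an explicit Markov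
chain, `t` the number of the split primes among the `p_i`, the conjecture modulo two holds for `E_N` over
ALL the subfields `K` of `Ω` at the same time: the Euler product of `E_N` over `K` continues to an
entire function, the order of which at `s = 1` has the same parity as the rank of `E_N(K)`. (Both are
zero.) This bound is positive, it is at least `2 ^ -(n + t)`, `n` the number of the split primes of
`D`, it differs from `c = 0.419…` by at most `∏_{1 ≤ i ≤ n} (2 ^ i - 1) / 2 ^ t`, and it does not depend
on `P`: the proportion does not decrease with the degree of the fields.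

The Euler products are without the factors at the places which divide `2 (4 A³ + 27 B²)`; these have
no influence on the order at `s = 1`.
-/

set_option autoImplicit false

open scoped Classical ENNReal

open WeierstrassCurve NumberField IsDedekindDomain

namespace Pool.Agent.Results.MP_413b36_nt.PrimeTwistsAllSubfields

open Filter
open Pool.Agent.Results.MP_50bb2e_nt.ProportionsOverMultiquadratic (A B curve factor Omega
  TrivialTwo AllFields c)
open Pool.Agent.Results.MP_50bb2e_nt.PrimeTwistsOverAllFields (Split Inert Member Kind primes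
  average lowerMean indicator split mat law markov splitSteps chain)

/-- The conjecture modulo two for `E_N` over `K`: the Euler product of `E_N` over `K` (without the
factors at the places which divide `2 (4 A³ + 27 B²)`) continues to an entire function `Λ`, whose order
of vanishing at `s = 1` is a number that has the same parity as the rank of `E_N(K)`. -/
def ModTwo (N : ℕ) (K : Type) [Field K] [NumberField K] : Prop :=
  ∃ (Λ : ℂ → ℂ) (r : ℕ), Differentiable ℂ Λ ∧
    (∀ s : ℂ, (3 : ℝ) / 2 < s.re → HasProd (factor (K := K) (A N) (B N) s) (Λ s)) ∧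
    analyticOrderAt Λ 1 = r ∧ r ≡ Module.finrank ℤ (curve N K).toAffine.Point [MOD 2]

/-- The conjecture modulo two for `E_N` over all the subfields of `ℚ(√q : q ∈ P)`. -/
def AllModTwo (P : Finset ℕ) (N : ℕ) : Prop :=
  ∀ K : IntermediateField ℚ ℂ, K ≤ Omega P → ∃ _ : NumberField K, ModTwo N K

section proof

theorem finrank_zero {G : Type} [AddCommGroup G] (h : Finite G) : Module.finrank ℤ G = 0 := by
  have h1 : Module.rank ℤ G = 0 := by
    rw [rank_eq_zero_iff]
    intro x
    refine ⟨(addOrderOf x : ℤ), ?_, ?_⟩
    · exact_mod_cast (addOrderOf_pos x).ne'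
    · rw [natCast_zsmul]
      exact addOrderOf_nsmul_eq_zero x
  unfold Module.finrank
  rw [h1, map_zero]

theorem mod_zero (N : ℕ) (K : Type) [Field K] [NumberField K]
    (h : Finite (curve N K).toAffine.Point) :
    0 ≡ Module.finrank ℤ (curve N K).toAffine.Point [MOD 2] := by
  rw [finrank_zero h]

theorem lowerMean_mono (P : Finset ℕ) (κ : ℕ → Bool) {T T' : ℕ → ℝ≥0∞} (h : ∀ N, T N ≤ T' N)
    (k : ℕ) : ∀ D, lowerMean P κ T k D ≤ lowerMean P κ T' k D := by
  induction k with
  | zero => exact h
  | succ k ih =>
    intro D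
    refine liminf_le_liminf (Eventually.of_forall fun X => ?_)
    exact Pool.Agent.U150.RG.mE_mono (P := Pool.Agent.U150.XG.PR (Kind P (κ k)))
      (S := Pool.Agent.U150.XG.SR (Kind P (κ k)) D)
      (fun X => (Pool.Agent.U150.XG.PR_fin _ X).subset (Pool.Agent.U150.XG.SR_sub _ _ X))
      (fun X p _ => ih _) X

theorem mod_of {P : Finset ℕ} {N : ℕ} (h : AllFields P N) : AllModTwo P N := by
  intro K hK
  obtain ⟨hN, ⟨Λ, h1, h2, h3, -⟩, h4, -⟩ := h K hK
  refine ⟨hN, Λ, 0, h1, h2, ?_, mod_zero N K h4⟩
  rw [h3]
  rfl

end proof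

/-- **The conjecture modulo two over all the subfields of `ℚ(√q : q ∈ P)` for successive prime
twists.** -/
theorem result (P : Finset ℕ) (hP : ∀ q ∈ P, q.Prime ∧ q % 4 = 1) :
    ((∀ q ∈ P, q % 7 = 3 ∨ q % 7 = 5 ∨ q % 7 = 6) → ∀ S, S ⊆ P → TrivialTwo (∏ q ∈ S, q)) ∧
    ((∀ S, S ⊆ P → TrivialTwo (∏ q ∈ S, q)) → ∀ κ : ℕ → Bool, κ 0 = false →
      ∀ D : ℕ, Member P D →
        (∀ k : ℕ,
          ENNReal.ofReal (chain κ k D 0) ≤ lowerMean P κ (indicator (AllModTwo P)) (k + 1) D ∧
          (1 / 2 : ℝ) ^ ((split D).card + splitSteps κ k) ≤ chain κ k D 0 ∧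
          |chain κ k D 0 - c| ≤
            (∏ i ∈ Finset.range (split D).card, ((2 : ℝ) ^ (i + 1) - 1)) / 2 ^ splitSteps κ k) ∧
        ((∃ᶠ i in atTop, κ i = true) → Tendsto (fun k => chain κ k D 0) atTop (nhds c))) ∧
    0.4194 < c ∧ c < 0.4195 := by
  obtain ⟨r1, r2, -, r4, r5⟩ :=
    Pool.Agent.Results.MP_50bb2e_nt.PrimeTwistsOverAllFields.result P hP
  refine ⟨r1, fun hT κ h0 D hD => ⟨fun k => ?_, (r2 hT κ h0 D hD).2⟩, r4, r5⟩
  obtain ⟨-, -, h3, h4, h5⟩ := (r2 hT κ h0 D hD).1 k
  refine ⟨h3.trans (lowerMean_mono P κ (fun N => ?_) _ _), h4, h5⟩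
  unfold indicator
  by_cases h : AllFields P N
  · rw [if_pos h, if_pos (mod_of h)]
  · rw [if_neg h]
    exact zero_le

end Pool.Agent.Results.MP_413b36_nt.PrimeTwistsAllSubfields
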