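import Mathlib
import Pool.Agent.U621.XS.AbM

/-!
# The Birch and Swinnerton-Dyer conjecture modulo two over abelian fields for the twists of a curve of
conductor `20` with at most one split prime

`E_D : y² = x³ - 11 D x² - D² x` is the quadratic twist by `D` of the elliptic curve `E_1` of conductor `20`
(`j = 2¹⁴ 31³ / 5³`, no complex multiplication), where `D` is squarefree, `1` modulo `4` and prime to `5`. `K` is
any abelian number field of odd conductor prime to `5 D`, i.e. any subfield of the `n`-th cyclotomic field, where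
`n` is prime to `10 D`; its Galois group and its degree are arbitrary. `M` is the subfield of `K` generated by the
square roots of the integers that lie in `K`.

* **Reduction.** The Euler products of `E_D` over `K` and over `M` continue to entire functions whose orders of
  vanishing at `s = 1` are finite and congruent modulo two; the ranks over `K` and `M` are congruent modulo two.
* **Criterion.** `D` is good if all its prime factors are `3` or `7` modulo `20`, or if `D = p m`, where `m` is such a
  number, `p` is a prime that is `1` or `9` modulo `20`, and `8` does not divide `#E_m(𝔽_p)`. If `D e` is good for all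
  the squarefree integers `e` with `√e ∈ K`, then `L(E_D/M, 1) ≠ 0` is a rational multiple of a product of real
  periods, `E_D(M)` is finite, and the conjecture modulo two holds for `E_D` over `K`.
* **Families.** Let `p`, `m` be as above with `8 ∤ #E_m(𝔽_p)`. The criterion holds for `E_{pm}` if `n` has only prime
  factors that are `3` or `7` modulo `20` and `p` splits completely in `M`; and for `E_m` if the prime factors of `n` are `p`
  and primes `3` or `7` modulo `20` that are squares modulo `p` (so `K` may be ramified at the split prime `p`). For each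
  `p`, `m` there are infinitely many primes `q` of the second kind. If there is no split prime, the criterion holds always.

Proof. The Euler factors of `E_D` over the places of `K` above a prime are multiplied; the result is the product
of the factors of the `L(E_D, χ, s)` over the characters `χ` of `K`. These are entire for all `χ` by the theory of Hecke
for the eta product of level `20` (`U621/XS/AbL.lean`, `AbA.lean`), and `χ`, `χ̄` have the same order at `1`. For the ranks, the
representation of `Gal(K/ℚ)` on `E_D(K) ⊗ ℚ` is split over the squares (`U621/XS/AbR.lean`). The values at `1` for the good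
`D e` are not zero by a congruence of sums of modular symbols with one split prime, and the groups `E_{De}(ℚ)` are finite by
a descent (`U621/XS`, used for `MP_92892c_nt.SplitPrimeTwistsX20`).
-/

set_option autoImplicit false

set_option linter.unusedVariables false

open NumberField IsDedekindDomain

namespace Pool.Agent.Results.MP_413b36_nt.SplitPrimesX20

open scoped Classical

/-! ### The curves over number fields -/

/-- The curve `E_D : y² = x³ - 11 D x² - D² x`, the quadratic twist by `D` of the curve `E_1` of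
conductor `20`. -/
def E (D : ℤ) : WeierstrassCurve ℤ := ⟨0, -11 * D, 0, -D ^ 2, 0⟩

/-- The curve given by the equation of `W` over the ring `R`. -/
abbrev base (W : WeierstrassCurve ℤ) (R : Type) [CommRing R] : WeierstrassCurve R :=
  W.map (Int.castRingHom R)

/-- The number of the affine points `(x, y)` over the ring `R`. -/
noncomputable def pts (W : WeierstrassCurve ℤ) (R : Type) [CommRing R] : ℕ :=
  Nat.card {P : R × R // (base W R).toAffine.Equation P.1 P.2}

section

variable {K : Type} [Field K] [NumberField K]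

/-- `a_v = N v + 1 - #W(k_v)`, the points over the residue field `k_v` counted with the point at
infinity. -/
noncomputable def a (W : WeierstrassCurve ℤ) (v : HeightOneSpectrum (𝓞 K)) : ℤ :=
  (Ideal.absNorm v.asIdeal : ℤ) - pts W (𝓞 K ⧸ v.asIdeal)

/-- The Euler factor of `L(W/K, s)` at `v` : `(1 - a_v N v^(-s) + N v^(1 - 2 s))⁻¹` if the
discriminant is a unit at `v`, and `(1 - a_v N v^(-s))⁻¹` otherwise. -/
noncomputable def factor (W : WeierstrassCurve ℤ) (s : ℂ) (v : HeightOneSpectrum (𝓞 K)) : ℂ :=
  (1 - (a W v : ℂ) * (Ideal.absNorm v.asIdeal : ℂ) ^ (-s) +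
    if ((W.Δ : ℤ) : 𝓞 K) ∈ v.asIdeal then 0 else (Ideal.absNorm v.asIdeal : ℂ) ^ (1 - 2 * s))⁻¹

end

section

variable (K : Type) [Field K] [NumberField K]

/-- The rank of the group of the points over `K`. -/
noncomputable def rank (W : WeierstrassCurve ℤ) : ℕ := Module.finrank ℤ (base W K).toAffine.Point

/-- `Λ` is the continuation of the Euler product of `W` over `K` to an entire function, and its order
of vanishing at `s = 1` is the number `r`. -/
def HasOrder (W : WeierstrassCurve ℤ) (Λ : ℂ → ℂ) (r : ℕ) : Prop :=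
  Differentiable ℂ Λ ∧ (∀ s : ℂ, 3 / 2 < s.re → HasProd (factor (K := K) W s) (Λ s)) ∧
    analyticOrderAt Λ 1 = r

/-- The conjecture modulo two for `W` over `K`: the Euler product continues to an entire function, and
its order of vanishing at `s = 1` is congruent modulo two to the rank. -/
def ModTwo (W : WeierstrassCurve ℤ) : Prop :=
  ∃ (Λ : ℂ → ℂ) (r : ℕ), HasOrder K W Λ r ∧ r ≡ rank K W [MOD 2]

end

/-- `(2 y + a₁ x + a₃)² = 4 x³ + b₂ x² + 2 b₄ x + b₆` -/
noncomputable def psi (W : WeierstrassCurve ℤ) (x : ℝ) : ℝ :=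
  4 * x ^ 3 + W.b₂ * x ^ 2 + 2 * W.b₄ * x + W.b₆

/-- The real period `∫_{E(ℝ)} |ω|`, `ω = dx / (2 y + a₁ x + a₃)`: each `x` with `psi x > 0` belongs to two
real points. -/
noncomputable def period (W : WeierstrassCurve ℤ) : ℝ :=
  2 * ∫ x in {x : ℝ | 0 < psi W x}, (Real.sqrt (psi W x))⁻¹

/-- The subfield of `K` generated by the square roots of the integers that lie in `K`. -/
noncomputable def quadraticPart {L : Type} [Field L] [NumberField L] (K : IntermediateField ℚ L) :
    IntermediateField ℚ L :=
  IntermediateField.adjoin ℚ {z : L | z ∈ K ∧ ∃ e : ℤ, z ^ 2 = (e : L)}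

/-- Over `M`, the Euler product of `E_D` continues to an entire function that is not zero at `1`; its value
there is a rational multiple of the product of the real periods of the `E_{De}`, `e` squarefree with `√e ∈ M`; the
rank is zero and there are finitely many points. -/
def RankZero (D : ℤ) {L : Type} [Field L] [NumberField L] (M : IntermediateField ℚ L) : Prop :=
  (∃ Λ : ℂ → ℂ, HasOrder M (E D) Λ 0 ∧ ∃ a b : ℤ, a ≠ 0 ∧ b ≠ 0 ∧
    b * Λ 1 = a * ((∏ᶠ e : {e : ℤ // Squarefree e ∧ ∃ z ∈ M, z ^ 2 = (e : L)},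
      period (E (D * e.1)) : ℝ) : ℂ)) ∧
  rank M (E D) = 0 ∧ Finite (base (E D) M).toAffine.Point

/-! ### The condition -/

/-- `m = 1 mod 4` is squarefree, positive or negative, and all its prime factors are `3` or `7` modulo
`20`. -/
def InertProduct (m : ℤ) : Prop := Squarefree m ∧ m % 4 = 1 ∧
  ∀ q : ℕ, q.Prime → (q : ℤ) ∣ m → q % 20 = 3 ∨ q % 20 = 7

/-- a prime that is `1` or `9` modulo `20` -/
def Split (p : ℕ) : Prop := p.Prime ∧ (p % 20 = 1 ∨ p % 20 = 9)

/-- the number of points of `E_m` over `ℤ/p`, with the point at infinity -/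
noncomputable def points (m : ℤ) (p : ℕ) : ℕ :=
  Nat.card {P : ZMod p × ZMod p // P.2 ^ 2 = P.1 ^ 3 - 11 * (m : ZMod p) * P.1 ^ 2 - (m : ZMod p) ^ 2 * P.1} + 1

/-- `D` is an inert product, or `D = p m` with a split prime `p` and an inert product `m` such that `8`
does not divide `#E_m(𝔽_p)`. -/
def Good (D : ℤ) : Prop := InertProduct D ∨
  ∃ (p : ℕ) (m : ℤ), D = p * m ∧ Split p ∧ InertProduct m ∧ ¬ 8 ∣ points m p

/-! ### Proofs -/

theorem points_eq (m : ℤ) (p : ℕ) : points m p = W97.MT.affCount (Y695.ED m) p + 1 := by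
  unfold points W97.MT.affCount
  congr 1
  refine Nat.card_congr (Equiv.subtypeEquivRight fun P => ?_)
  rw [WeierstrassCurve.Affine.equation_iff]
  simp only [WeierstrassCurve.map, Y695.ED, eq_intCast]
  push_cast
  constructor
  · intro h
    linear_combination h
  · intro h
    linear_combination h

theorem conv {p : ℕ} {m : ℤ} (hp : Split p) (hm : InertProduct m) : U621.XS.OneSplit p m :=
  ⟨hp.1, hp.2, hm.1, hm.2.1, hm.2.2⟩

theorem good_conv {D : ℤ} : Good D ↔ U621.XS.Tow.Good D := by
  unfold Good U621.XS.Tow.Good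
  refine or_congr Iff.rfl ⟨?_, ?_⟩
  · rintro ⟨p, m, h1, h2, h3, h4⟩
    rw [points_eq] at h4
    exact ⟨p, m, h1, conv h2 h3, h4⟩
  · rintro ⟨p, m, h1, h2, h4⟩
    rw [← points_eq] at h4
    exact ⟨p, m, h1, ⟨h2.prime, h2.mod⟩, ⟨h2.sqf, h2.four, h2.inert⟩, h4⟩

theorem full {D : ℤ} (hD : U621.XS.Tow.Base D) {n : ℕ} [NeZero n]
    (hn : ∀ p : ℕ, p.Prime → p ∣ n → p ≠ 2 ∧ p ≠ 5) (hco : n.Coprime D.natAbs)
    {L : Type} [Field L] [NumberField L] [IsCyclotomicExtension {n} ℚ L]
    (K : IntermediateField ℚ L)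
    (hG : ∀ e : ℤ, Squarefree e → (∃ z ∈ K, z ^ 2 = (e : L)) → U621.XS.Tow.Good (D * e)) :
    RankZero D (quadraticPart K) ∧ ModTwo K (E D) := by
  have hodd : Odd n := by
    rw [Nat.odd_iff]
    by_contra h
    have h1 : 2 ∣ n := by omega
    exact (hn 2 Nat.prime_two h1).1 rfl
  have hM : U621.PAR.IsTwo K (quadraticPart K) := U621.PAR.sqf_two hodd K
  obtain ⟨⟨⟨Λ, h1, h2, a, b, h4, h5⟩, h6, h7⟩, Λ', r, k1, k2, k3, k4⟩ :=
    U621.XS.Ab.full hD hn hco K _ hM hG
  refine ⟨⟨⟨Λ, ⟨h1.1, h1.2, ?_⟩, a, b, ?_, h4, ?_⟩, h6, h7⟩, Λ', r, ⟨k1.1, k1.2, k2⟩, ?_⟩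
  · exact analyticOrderAt_eq_zero.2 (Or.inr h2)
  · rintro rfl
    rw [Int.cast_zero, zero_mul] at h5
    rcases mul_eq_zero.1 h5 with h | h
    · exact h2 h
    · exact h4 (by exact_mod_cast h)
  · rw [mul_comm]
    exact h5
  · have k5 : Even (rank K (E D)) := k4
    unfold Nat.ModEq
    rw [Nat.even_iff.1 k3, Nat.even_iff.1 k5]

/-- **The conjecture modulo two over abelian fields.** -/
theorem result :
    -- the reduction to the quadratic part, and the criterion
    (∀ D : ℤ, Squarefree D → D % 4 = 1 → ¬ (5 : ℤ) ∣ D → ∀ (n : ℕ) [NeZero n], n.Coprime 10 →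
      n.Coprime D.natAbs → ∀ (L : Type) [Field L] [NumberField L] [IsCyclotomicExtension {n} ℚ L]
      (K : IntermediateField ℚ L),
      (∃ (Λ₀ Λ : ℂ → ℂ) (r₀ r : ℕ), HasOrder (quadraticPart K) (E D) Λ₀ r₀ ∧
        HasOrder K (E D) Λ r ∧ r ≡ r₀ [MOD 2] ∧
        rank K (E D) ≡ rank (quadraticPart K) (E D) [MOD 2]) ∧
      ((∀ e : ℤ, Squarefree e → (∃ z ∈ K, z ^ 2 = (e : L)) → Good (D * e)) →
        RankZero D (quadraticPart K) ∧ ModTwo K (E D))) ∧
    -- no split prime
    (∀ m : ℤ, InertProduct m → ∀ (n : ℕ) [NeZero n], n.Coprime m.natAbs →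
      (∀ q : ℕ, q.Prime → q ∣ n → q % 20 = 3 ∨ q % 20 = 7) →
      ∀ (L : Type) [Field L] [NumberField L] [IsCyclotomicExtension {n} ℚ L]
      (K : IntermediateField ℚ L), RankZero m (quadraticPart K) ∧ ModTwo K (E m)) ∧
    -- one split prime
    (∀ (p : ℕ) (m : ℤ), Split p → InertProduct m → ¬ 8 ∣ points m p →
      (∀ (n : ℕ) [NeZero n], n.Coprime (p * m : ℤ).natAbs →
        (∀ q : ℕ, q.Prime → q ∣ n → q % 20 = 3 ∨ q % 20 = 7) →
        ∀ (L : Type) [Field L] [NumberField L] [IsCyclotomicExtension {n} ℚ L]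
        (K : IntermediateField ℚ L),
        (∀ e : ℤ, Squarefree e → (∃ z ∈ K, z ^ 2 = (e : L)) → IsSquare (e : ZMod p)) →
        RankZero (p * m) (quadraticPart K) ∧ ModTwo K (E (p * m))) ∧
      (∀ (n : ℕ) [NeZero n], n.Coprime m.natAbs →
        (∀ q : ℕ, q.Prime → q ∣ n → q = p ∨ ((q % 20 = 3 ∨ q % 20 = 7) ∧ IsSquare (q : ZMod p))) →
        ∀ (L : Type) [Field L] [NumberField L] [IsCyclotomicExtension {n} ℚ L]
        (K : IntermediateField ℚ L), RankZero m (quadraticPart K) ∧ ModTwo K (E m)) ∧
      {q : ℕ | q.Prime ∧ q % 20 = 3 ∧ ¬ q ∣ (p * m : ℤ).natAbs ∧ IsSquare (q : ZMod p)}.Infinite) := by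
  refine ⟨fun D hD hD4 hD5 n _ hn hco L _ _ _ K => ?_, fun m hm n _ hco hn L _ _ _ K => ?_,
    fun p m hp hm h8 => ⟨fun n _ hco hn L _ _ _ K hs => ?_, fun n _ hco hn L _ _ _ K => ?_,
      U621.XS.Tow.infinite_q (conv hp hm)⟩⟩
  · have hB : U621.XS.Tow.Base D := ⟨hD, hD4, hD5⟩
    have hn' : ∀ p : ℕ, p.Prime → p ∣ n → p ≠ 2 ∧ p ≠ 5 := by
      intro p hp hpn
      constructor
      · rintro rfl
        exact hp.one_lt.ne' (Nat.eq_one_of_dvd_coprimes hn hpn (by norm_num))
      · rintro rfl
        exact hp.one_lt.ne' (Nat.eq_one_of_dvd_coprimes hn hpn (by norm_num))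
    have hodd : Odd n := by
      rw [Nat.odd_iff]
      by_contra h
      have h1 : 2 ∣ n := by omega
      exact (hn' 2 Nat.prime_two h1).1 rfl
    have hM : U621.PAR.IsTwo K (quadraticPart K) := U621.PAR.sqf_two hodd K
    refine ⟨?_, fun hG => full hB hn' hco K fun e he hz => good_conv.1 (hG e he hz)⟩
    obtain ⟨Λ₀, Λ, r₀, r, h1, h2, h3, h4, h5, h6⟩ := U621.XS.Ab.reduction hB hn' hco K _ hM
    refine ⟨Λ₀, Λ, r₀, r, ⟨h1.1, h1.2, h3⟩, ⟨h2.1, h2.2, h4⟩, ?_, ?_⟩
    · have h7 := Nat.even_iff.1 h5
      unfold Nat.ModEq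
      omega
    · have h6' : Even (rank K (E D) + rank (quadraticPart K) (E D)) := h6
      have h7 := Nat.even_iff.1 h6'
      unfold Nat.ModEq
      omega
  · have hodd : Odd n := by
      rw [Nat.odd_iff]
      by_contra h
      have h1 : 2 ∣ n := by omega
      have := hn 2 Nat.prime_two h1
      omega
    refine full (U621.XS.Tow.inert_base hm) (fun q hq hqn => ?_) hco K fun e he hz => ?_
    · have := hn q hq hqn
      omega
    · obtain ⟨z, hzK, hz⟩ := hz
      obtain ⟨T, hT, heT⟩ := U621.PAR.sqrt_disc (q := n) (L := L) hodd he hz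
      exact Or.inl (U621.XS.Tow.inert_mul hm.1 hm.2.1 hm.2.2 hn hco hT heT)
  · have h := conv hp hm
    rw [points_eq] at h8
    refine full (U621.XS.Tow.split_base h) (fun q hq hqn => ?_) hco K fun e he hz => ?_
    · have := hn q hq hqn
      omega
    · exact U621.XS.Tow.family h h8 hn hco K hs he hz
  · have h := conv hp hm
    rw [points_eq] at h8
    refine full (U621.XS.Tow.inert_base hm) (fun q hq hqn => ?_) hco K fun e he hz => ?_
    · rcases hn q hq hqn with h1 | h1
      · have := h.mod
        omega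
      · omega
    · exact U621.XS.Tow.family' h h8 hn hco he hz

end Pool.Agent.Results.MP_413b36_nt.SplitPrimesX20
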